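import Mathlib

/-!
# Points with nonzero Jacobian are algebraic
-/

namespace Pool.Agent.Helper24.CQ

open MvPolynomial

/-- The chain rule for derivations. -/
theorem derivation_aeval {K L M ι : Type*} [CommRing K] [CommRing L] [Algebra K L]
    [AddCommGroup M] [Module K M] [Module L M] [IsScalarTower K L M] [Fintype ι]
    (D : Derivation K L M) (x : ι → L) (f : MvPolynomial ι K) :
    D (aeval x f) = ∑ j, aeval x (pderiv j f) • D (x j) := by
  classical
  induction f using MvPolynomial.induction_on with
  | C a =>
    simp
  | add p q hp hq =>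
    rw [map_add, map_add, hp, hq, ← Finset.sum_add_distrib]
    refine Finset.sum_congr rfl fun j _ => ?_
    rw [map_add, map_add, add_smul]
  | mul_X p i hp =>
    rw [map_mul, Derivation.leibniz, hp, aeval_X, Finset.smul_sum]
    have h : ∀ j, aeval x (pderiv j (p * X i)) • D (x j) =
        x i • aeval x (pderiv j p) • D (x j) + (if j = i then aeval x p • D (x i) else 0) := by
      intro j
      rw [Derivation.leibniz, pderiv_X]
      by_cases hji : j = i
      · subst hji
        simp [add_smul, smul_smul, add_comm]
      · rw [Pi.single_eq_of_ne (Ne.symm hji)]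
        simp [hji, smul_smul]
    rw [Finset.sum_congr rfl fun j _ => h j, Finset.sum_add_distrib, Finset.sum_ite_eq' Finset.univ i]
    simp [add_comm]

/-- A square linear system with nonzero determinant. -/
theorem vec_eq_zero {L M ι : Type*} [Field L] [AddCommGroup M] [Module L M] [Fintype ι]
    [DecidableEq ι] (J : Matrix ι ι L) (hJ : J.det ≠ 0) (v : ι → M)
    (h : ∀ i, ∑ j, J i j • v j = 0) (k : ι) : v k = 0 := by
  have h1 : ∑ i, J.adjugate k i • ∑ j, J i j • v j = 0 :=
    Finset.sum_eq_zero fun i _ => by rw [h, smul_zero]
  have h2 : ∑ i, J.adjugate k i • ∑ j, J i j • v j = ∑ j, (J.adjugate * J) k j • v j := by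
    simp only [Finset.smul_sum, smul_smul]
    rw [Finset.sum_comm]
    refine Finset.sum_congr rfl fun j _ => ?_
    rw [Matrix.mul_apply, Finset.sum_smul]
  rw [h2, Matrix.adjugate_mul] at h1
  have h3 : ∑ j, (J.det • (1 : Matrix ι ι L)) k j • v j = J.det • v k := by
    rw [Finset.sum_eq_single k]
    · simp
    · intro j _ hj
      simp [Matrix.one_apply_ne (Ne.symm hj)]
    · intro h
      exact absurd (Finset.mem_univ k) h
  rw [h3] at h1
  exact (smul_eq_zero.1 h1).resolve_left hJ

theorem alg_of_jac {K E ι : Type*} [Field K] [CharZero K] [Field E] [Algebra K E] [Fintype ι]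
    [DecidableEq ι] (G : ι → MvPolynomial ι K) (x : ι → E)
    (hx : ∀ i, ∃ c : K, aeval x (G i) = algebraMap K E c)
    (hJ : (Matrix.of fun i j => aeval x (pderiv j (G i))).det ≠ 0) (i : ι) :
    IsAlgebraic K (x i) := by
  let L : IntermediateField K E := IntermediateField.adjoin K (Set.range x)
  let x' : ι → L := fun i => ⟨x i, IntermediateField.subset_adjoin K _ ⟨i, rfl⟩⟩
  have hval : ∀ f : MvPolynomial ι K, L.val (aeval x' f) = aeval x f := by
    intro f
    exact comp_aeval_apply x' L.val f
  have hval2 : ∀ f : MvPolynomial ι K, algebraMap L E (aeval x' f) = aeval x f := hval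
  have hJ' : (Matrix.of fun i j => aeval x' (pderiv j (G i))).det ≠ 0 := by
    intro h
    apply hJ
    have h2 := congrArg (algebraMap L E) h
    rw [RingHom.map_det, map_zero] at h2
    rw [← h2]
    congr 1
    ext i j
    exact (hval2 _).symm
  have hd : ∀ j, KaehlerDifferential.D K L (x' j) = 0 := by
    refine vec_eq_zero _ hJ' _ fun i => ?_
    obtain ⟨c, hc⟩ := hx i
    have h1 : aeval x' (G i) = algebraMap K L c := by
      apply (algebraMap L E).injective
      rw [hval2, hc]
      rfl
    have h2 := derivation_aeval (KaehlerDifferential.D K L) x' (G i)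
    rw [h1, Derivation.map_algebraMap] at h2
    exact h2.symm
  have hall : ∀ (y : E) (hy : y ∈ IntermediateField.adjoin K (Set.range x)),
      KaehlerDifferential.D K L (⟨y, hy⟩ : L) = 0 := by
    intro y hy
    induction hy using IntermediateField.adjoin_induction with
    | mem y hy =>
      obtain ⟨j, rfl⟩ := hy
      exact hd j
    | algebraMap c => exact (KaehlerDifferential.D K L).map_algebraMap c
    | add y z hy hz h1 h2 =>
      have := (KaehlerDifferential.D K L).map_add (⟨y, hy⟩ : L) ⟨z, hz⟩
      rw [h1, h2, add_zero] at this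
      exact this
    | inv y hy h1 =>
      have := (KaehlerDifferential.D K L).leibniz_inv (⟨y, hy⟩ : L)
      rw [h1, smul_zero] at this
      exact this
    | mul y z hy hz h1 h2 =>
      have := (KaehlerDifferential.D K L).leibniz (⟨y, hy⟩ : L) ⟨z, hz⟩
      rw [h1, h2, smul_zero, smul_zero, add_zero] at this
      exact this
  have hsub : Subsingleton (Ω[L⁄K]) := by
    rw [← Submodule.subsingleton_iff L, ← subsingleton_iff_bot_eq_top,
      ← KaehlerDifferential.span_range_derivation K L]
    symm
    rw [Submodule.span_eq_bot]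
    rintro _ ⟨y, rfl⟩
    exact hall y.1 y.2
  have hun : Algebra.FormallyUnramified K L := ⟨hsub⟩
  have hess : Algebra.EssFiniteType K L :=
    IntermediateField.essFiniteType_iff.2
      (IntermediateField.fg_adjoin_of_finite (Set.finite_range x))
  have hsep : Algebra.IsSeparable K L := Algebra.FormallyUnramified.isSeparable K L
  have halg : IsAlgebraic K (x' i) := Algebra.IsAlgebraic.isAlgebraic (x' i)
  exact (isAlgebraic_algebraMap_iff (algebraMap L E).injective).2 halg

end Pool.Agent.Helper24.CQ
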