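import Pool.Agent.Helper76.CQ.Defs
import Pool.Agent.Helper24.CQ.AlgJac

/-!
# The inverse function theorem for polynomial maps over the 2-adic numbers
-/

namespace Pool.Agent.Helper24.CQ

open MvPolynomial Filter Topology

/-- Polynomials are strictly differentiable. -/
theorem hasStrictFDerivAt_eval {ι : Type*} [Fintype ι] (f : MvPolynomial ι ℚ_[2])
    (x : ι → ℚ_[2]) :
    HasStrictFDerivAt (fun y : ι → ℚ_[2] => eval y f)
      (∑ j, eval x (pderiv j f) • (ContinuousLinearMap.proj j : (ι → ℚ_[2]) →L[ℚ_[2]] ℚ_[2])) x := by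
  classical
  induction f using MvPolynomial.induction_on with
  | C a =>
    have h0 : (∑ j : ι, eval x (pderiv j (C a : MvPolynomial ι ℚ_[2])) •
        (ContinuousLinearMap.proj j : (ι → ℚ_[2]) →L[ℚ_[2]] ℚ_[2])) = 0 :=
      Finset.sum_eq_zero fun j _ => by
        ext v
        rw [pderiv_C, map_zero, _root_.smul_apply, smul_eq_mul, zero_mul]
        rfl
    rw [h0]
    simp only [eval_C]
    exact hasStrictFDerivAt_const a x
  | add p q hp hq =>
    have h := hp.add hq
    have h0 : (∑ j : ι, eval x (pderiv j (p + q)) •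
        (ContinuousLinearMap.proj j : (ι → ℚ_[2]) →L[ℚ_[2]] ℚ_[2])) =
        (∑ j : ι, eval x (pderiv j p) •
          (ContinuousLinearMap.proj j : (ι → ℚ_[2]) →L[ℚ_[2]] ℚ_[2])) +
        ∑ j : ι, eval x (pderiv j q) •
          (ContinuousLinearMap.proj j : (ι → ℚ_[2]) →L[ℚ_[2]] ℚ_[2]) := by
      rw [← Finset.sum_add_distrib]
      refine Finset.sum_congr rfl fun j _ => ?_
      ext v
      simp only [map_add, _root_.add_apply, _root_.smul_apply, smul_eq_mul, add_mul]
    rw [h0]
    simp only [map_add]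
    exact h
  | mul_X p i hp =>
    have h1 : HasStrictFDerivAt (fun y : ι → ℚ_[2] => y i)
        (ContinuousLinearMap.proj i : (ι → ℚ_[2]) →L[ℚ_[2]] ℚ_[2]) x :=
      (ContinuousLinearMap.proj i : (ι → ℚ_[2]) →L[ℚ_[2]] ℚ_[2]).hasStrictFDerivAt
    have h := hp.mul h1
    simp only [map_mul, eval_X]
    refine h.congr_fderiv ?_
    ext v
    simp only [_root_.add_apply, _root_.smul_apply,
      _root_.sum_apply, ContinuousLinearMap.proj_apply, smul_eq_mul,
      Derivation.leibniz, pderiv_X, map_add, map_mul, eval_X]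
    rw [Finset.mul_sum]
    have h2 : ∀ j, (eval x p * eval x ((Pi.single i 1 : ι → MvPolynomial ι ℚ_[2]) j) +
        x i * eval x (pderiv j p)) * v j =
        (if j = i then eval x p * v i else 0) + x i * (eval x (pderiv j p) * v j) := by
      intro j
      by_cases hji : j = i
      · subst hji
        simp
        ring
      · rw [Pi.single_eq_of_ne hji]
        simp [hji]
        ring
    have h3 : ∀ j, (eval x p * eval x ((Pi.single j 1 : ι → MvPolynomial ι ℚ_[2]) i) +
        x i * eval x (pderiv j p)) * v j =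
        (if j = i then eval x p * v i else 0) + x i * (eval x (pderiv j p) * v j) := by
      intro j
      rw [← h2]
      congr 3
      by_cases hji : j = i
      · subst hji
        rfl
      · rw [Pi.single_eq_of_ne hji, Pi.single_eq_of_ne (Ne.symm hji)]
    rw [Finset.sum_congr rfl fun j _ => h3 j, Finset.sum_add_distrib,
      Finset.sum_ite_eq' Finset.univ i]
    simp

theorem open_at {ι : Type*} [Fintype ι] [DecidableEq ι] (G : ι → MvPolynomial ι ℚ_[2])
    (x : ι → ℚ_[2]) (hJ : (Matrix.of fun i j => eval x (pderiv j (G i))).det ≠ 0) :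
    Filter.map (fun y i => eval y (G i)) (𝓝 x) = 𝓝 (fun i => eval x (G i)) := by
  set J : Matrix ι ι ℚ_[2] := Matrix.of fun i j => eval x (pderiv j (G i)) with hJdef
  have hunit : IsUnit J.det := isUnit_iff_ne_zero.2 hJ
  let e : (ι → ℚ_[2]) ≃ₗ[ℚ_[2]] (ι → ℚ_[2]) := Matrix.toLinearEquiv' J (J.invertibleOfIsUnitDet hunit)
  let E : (ι → ℚ_[2]) ≃L[ℚ_[2]] (ι → ℚ_[2]) := e.toContinuousLinearEquiv
  have h : HasStrictFDerivAt (fun (y : ι → ℚ_[2]) i => eval y (G i))
      (E : (ι → ℚ_[2]) →L[ℚ_[2]] (ι → ℚ_[2])) x := by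
    rw [hasStrictFDerivAt_pi']
    intro i
    refine (hasStrictFDerivAt_eval (G i) x).congr_fderiv ?_
    ext v
    simp only [_root_.sum_apply, _root_.smul_apply,
      ContinuousLinearMap.proj_apply, smul_eq_mul, ContinuousLinearMap.comp_apply]
    rfl
  exact h.map_nhds_eq_of_equiv

/-- Combination of the two previous statements. -/
theorem alg_inverse {K ι : Type*} [Field K] [CharZero K] [Algebra K ℚ_[2]] [Fintype ι]
    [DecidableEq ι] (G : ι → MvPolynomial ι K) (x : ι → ℚ_[2])
    (hJ : (Matrix.of fun i j => aeval x (pderiv j (G i))).det ≠ 0) (U : Set (ι → ℚ_[2]))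
    (hU : U ∈ 𝓝 x) : ∃ W ∈ 𝓝 (fun i => aeval x (G i)), ∀ z : ι → K,
      (fun i => algebraMap K ℚ_[2] (z i)) ∈ W → ∃ y ∈ U,
        (∀ i, aeval y (G i) = algebraMap K ℚ_[2] (z i)) ∧ ∀ i, IsAlgebraic K (y i) := by
  have hev : ∀ (y : ι → ℚ_[2]) (f : MvPolynomial ι K),
      aeval y f = eval y (map (algebraMap K ℚ_[2]) f) := by
    intro y f
    rw [eval_map, aeval_def]
  let V : Set (ι → ℚ_[2]) := {y | (Matrix.of fun i j => aeval y (pderiv j (G i))).det ≠ 0}
  have hcont : Continuous fun y : ι → ℚ_[2] =>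
      (Matrix.of fun i j => aeval y (pderiv j (G i))).det := by
    refine Continuous.matrix_det ?_
    refine continuous_matrix fun i j => ?_
    simp only [Matrix.of_apply, hev]
    exact MvPolynomial.continuous_eval _
  have hV : V ∈ 𝓝 x := (isOpen_ne.preimage hcont).mem_nhds hJ
  have hopen := open_at (fun i => map (algebraMap K ℚ_[2]) (G i)) x (by
    simpa only [pderiv_map, ← hev] using hJ)
  simp only [← hev] at hopen
  refine ⟨(fun y i => aeval y (G i)) '' (U ∩ V), ?_, ?_⟩
  · rw [← hopen]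
    exact Filter.image_mem_map (Filter.inter_mem hU hV)
  · rintro z ⟨y, ⟨hyU, hyV⟩, hyz⟩
    have hy : ∀ i, aeval y (G i) = algebraMap K ℚ_[2] (z i) := fun i => congrFun hyz i
    exact ⟨y, hyU, hy, fun i => alg_of_jac G y (fun i => ⟨z i, hy i⟩) hyV i⟩

end Pool.Agent.Helper24.CQ
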